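import Mathlib

/-!
# The sum-decomposition value of cut functions is not monotone in the weights

We give weights `w' ≤ w` of the edges of `K₇` for which the least value `φ₁(V)` of a monotonic
sum-decomposition of the weighted cut function is larger for `w'` than for `w`
(MP_37da45_co, Q1: the answer is negative). The weights are integers, and `w'` arises from `w`
by deleting one edge of weight one.
-/

namespace Pool.Agent.Q181.CutMono

section Definitions

variable {V : Type} [Fintype V] [DecidableEq V]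

/-- Submodular set functions. -/
def Submodular (φ : Finset V → ℝ) : Prop :=
  ∀ X Y, φ (X ∩ Y) + φ (X ∪ Y) ≤ φ X + φ Y

/-- A monotonic sum-decomposition `φ = φ₁ + φ₂`. -/
structure IsDecomposition (φ φ₁ φ₂ : Finset V → ℝ) : Prop where
  sum : ∀ X, φ X = φ₁ X + φ₂ X
  increasing : ∀ X Y, X ⊆ Y → φ₁ X ≤ φ₁ Y
  decreasing : ∀ X Y, X ⊆ Y → φ₂ Y ≤ φ₂ X
  submodular₁ : Submodular φ₁
  submodular₂ : Submodular φ₂
  empty₁ : φ₁ ∅ = 0
  empty₂ : φ₂ ∅ = 0

/-- The value `‖φ‖₊`: the least value `φ₁(V)` of a monotonic sum-decomposition of `φ`. -/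
noncomputable def plusNorm (φ : Finset V → ℝ) : ℝ :=
  sInf {r | ∃ φ₁ φ₂, IsDecomposition φ φ₁ φ₂ ∧ φ₁ Finset.univ = r}

/-- The weighted cut function: the total weight of the edges between `X` and its complement. -/
noncomputable def cut (G : SimpleGraph V) [DecidableRel G.Adj] (w : Sym2 V → ℝ)
    (X : Finset V) : ℝ :=
  ∑ a ∈ X, ∑ b ∈ Xᶜ, if G.Adj a b then w s(a, b) else 0

end Definitions

/-! ### Sets as binary numbers -/

/-- The set of the binary digits `1` of `m`. -/
def B (m : ℕ) : Finset (Fin 7) := Finset.univ.filter fun i => m.testBit i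

/-- The number of a set. -/
def code (X : Finset (Fin 7)) : ℕ := ∑ i ∈ X, 2 ^ (i : ℕ)

theorem B_or (a b : ℕ) : B (a ||| b) = B a ∪ B b := by
  ext i; simp [B, Nat.testBit_or]

theorem B_and (a b : ℕ) : B (a &&& b) = B a ∩ B b := by
  ext i; simp [B, Nat.testBit_and]

theorem B_code : ∀ X : Finset (Fin 7), B (code X) = X := by decide +kernel

theorem code_lt : ∀ X : Finset (Fin 7), code X < 128 := by decide +kernel

theorem code_B : ∀ m < 128, code (B m) = m := by decide +kernel

theorem code_compl : ∀ X : Finset (Fin 7), code Xᶜ = 127 - code X := by decide +kernel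

theorem code_union (X Y : Finset (Fin 7)) : code (X ∪ Y) = code X ||| code Y := by
  have h : code X ||| code Y < 128 := Nat.or_lt_two_pow (n := 7) (code_lt X) (code_lt Y)
  rw [← code_B _ h, B_or, B_code, B_code]

theorem code_inter (X Y : Finset (Fin 7)) : code (X ∩ Y) = code X &&& code Y := by
  have h : code X &&& code Y < 128 := lt_of_le_of_lt Nat.and_le_left (code_lt X)
  rw [← code_B _ h, B_and, B_code, B_code]

/-- The entry `m` of a table of numbers less than `256`. -/
def tab (T m : ℕ) : ℕ := T >>> (8 * m) &&& 255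

/-- The table `T` is increasing and submodular, and vanishes at the empty set. -/
def chk (T : ℕ) : Bool :=
  (List.range 128).all fun a => (List.range 128).all fun b =>
    decide (tab T (a &&& b) + tab T (a ||| b) ≤ tab T a + tab T b) &&
      decide (tab T (a &&& b) ≤ tab T a)

theorem of_chk {T : ℕ} (h : chk T = true) (a b : ℕ) (ha : a < 128) (hb : b < 128) :
    tab T (a &&& b) + tab T (a ||| b) ≤ tab T a + tab T b ∧ tab T (a &&& b) ≤ tab T a := by
  have h1 := List.all_eq_true.mp h a (List.mem_range.mpr ha)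
  have h2 := List.all_eq_true.mp h1 b (List.mem_range.mpr hb)
  rw [Bool.and_eq_true, decide_eq_true_eq, decide_eq_true_eq] at h2
  exact h2

/-- A table with the property `chk`, divided by `q`, gives a monotonic sum-decomposition. -/
theorem decomposition_of_table (φ : Finset (Fin 7) → ℝ) (T q : ℕ) (hq : 0 < q)
    (hT : chk T = true) (h0 : tab T 0 = 0)
    (hφ : ∀ X, (q : ℝ) * φ X + tab T 127 = tab T (code X) + tab T (127 - code X)) :
    ∃ φ₁ φ₂, IsDecomposition φ φ₁ φ₂ ∧ φ₁ Finset.univ = tab T 127 / q := by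
  have hq' : (0 : ℝ) < q := by exact_mod_cast hq
  have hsub : ∀ X Y : Finset (Fin 7), (tab T (code (X ∩ Y)) : ℝ) + tab T (code (X ∪ Y)) ≤
      tab T (code X) + tab T (code Y) := by
    intro X Y
    rw [code_inter, code_union]
    exact_mod_cast (of_chk hT _ _ (code_lt X) (code_lt Y)).1
  have hinc : ∀ X Y : Finset (Fin 7), X ⊆ Y → (tab T (code X) : ℝ) ≤ tab T (code Y) := by
    intro X Y h
    have h1 := (of_chk hT _ _ (code_lt Y) (code_lt X)).2
    rw [← code_inter, Finset.inter_eq_right.mpr h] at h1
    exact_mod_cast h1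
  have hu : code (Finset.univ : Finset (Fin 7)) = 127 := by decide +kernel
  have he : code (∅ : Finset (Fin 7)) = 0 := by decide +kernel
  refine ⟨fun X => tab T (code X) / q, fun X => (tab T (code Xᶜ) - tab T 127) / q, ?_, ?_⟩
  · refine ⟨?_, ?_, ?_, ?_, ?_, ?_, ?_⟩
    · intro X
      have h1 := hφ X
      rw [← code_compl] at h1
      field_simp
      linarith
    · intro X Y h
      exact div_le_div_of_nonneg_right (hinc X Y h) hq'.le
    · intro X Y h
      refine div_le_div_of_nonneg_right ?_ hq'.le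
      have := hinc Yᶜ Xᶜ (Finset.compl_subset_compl.mpr h)
      linarith
    · intro X Y
      have := hsub X Y
      rw [← add_div, ← add_div]
      exact div_le_div_of_nonneg_right this hq'.le
    · intro X Y
      have := hsub Xᶜ Yᶜ
      rw [← Finset.compl_union, ← Finset.compl_inter] at this
      rw [← add_div, ← add_div]
      refine div_le_div_of_nonneg_right ?_ hq'.le
      linarith
    · simp only [he, h0, Nat.cast_zero, zero_div]
    · simp only [Finset.compl_empty, hu, sub_self, zero_div]
  · simp only [hu]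

/-! ### The weights -/

/-- The weights `w` of the pairs of vertices. -/
def wN : Fin 7 → Fin 7 → ℕ :=
  ![![0, 2, 1, 0, 1, 2, 2], ![2, 0, 1, 1, 1, 2, 1], ![1, 1, 0, 1, 1, 1, 1], ![0, 1, 1, 0, 1, 1, 0], ![1, 1, 1, 1, 0, 1, 1], ![2, 2, 1, 1, 1, 0, 1], ![2, 1, 1, 0, 1, 1, 0]]

/-- The weights `w'`: the edge between the vertices `0` and `4` is deleted. -/
def wN' : Fin 7 → Fin 7 → ℕ :=
  ![![0, 2, 1, 0, 0, 2, 2], ![2, 0, 1, 1, 1, 2, 1], ![1, 1, 0, 1, 1, 1, 1], ![0, 1, 1, 0, 1, 1, 0], ![0, 1, 1, 1, 0, 1, 1], ![2, 2, 1, 1, 1, 0, 1], ![2, 1, 1, 0, 1, 1, 0]]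

/-- The weights of the edges given by a symmetric table. -/
def wt (f : Fin 7 → Fin 7 → ℕ) (hf : ∀ a b, f a b = f b a) (e : Sym2 (Fin 7)) : ℝ :=
  Sym2.lift ⟨fun a b => (f a b : ℝ), fun a b => congrArg Nat.cast (hf a b)⟩ e

/-- The cut function as a natural number. -/
def cutN (f : Fin 7 → Fin 7 → ℕ) (X : Finset (Fin 7)) : ℕ :=
  ∑ a ∈ X, ∑ b ∈ Xᶜ, if a ≠ b then f a b else 0

theorem cut_eq (f : Fin 7 → Fin 7 → ℕ) (hf : ∀ a b, f a b = f b a) (X : Finset (Fin 7)) :
    cut ⊤ (wt f hf) X = cutN f X := by
  simp only [cut, cutN, wt, SimpleGraph.top_adj, Sym2.lift_mk]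
  push_cast
  rfl

/-- The table of the decomposition for `w`. -/
def T1 : ℕ := 9869687799244087336553048106292684812020265766742075301286357396895127298327548774509334944127299480767583992647400726448372979943878942168996012383870223173118350226269313066131168911057727219889388873077750453382149453936217197544528277242336844260265066101645500403729404637484547454244263228868171139072

/-- The table of (four times) the decomposition for `w'`. -/
def T2 : ℕ := 40183728896922355574792096135648788946571996343715913285428781987098831172526776472943919276038070706607358696192980045686608668307047293840177680256700480229892349809430367393820509846834698683532283169961496745120976399326114055549671503577349962210337238347145954090623957594138642123836433708659083582464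

/-- The table of the cut function of `w'`. -/
def D2 : ℕ := 19287616331258313406016073724709978947113311530669724746380394007086363687272288309335093818866060290102976291587328631474623515479805718807820504441103393791923662002560758700556346718732735352031426967749173452567572465898107398772160633084881833905035366642110068822621460156293341899093169231016494848

theorem chk1 : chk T1 = true := by decide +kernel

theorem chk2 : chk T2 = true := by decide +kernel

theorem tab1 : ∀ X : Finset (Fin 7),
    1 * cutN wN X + tab T1 127 = tab T1 (code X) + tab T1 (127 - code X) := by decide +kernel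

theorem tab2 : ∀ X : Finset (Fin 7),
    4 * cutN wN' X + tab T2 127 = tab T2 (code X) + tab T2 (127 - code X) := by decide +kernel

theorem tabD : ∀ m < 128, cutN wN' (B m) = tab D2 m := by decide +kernel

theorem symm_wN : ∀ a b, wN a b = wN b a := by decide

theorem symm_wN' : ∀ a b, wN' a b = wN' b a := by decide

theorem le_wN : ∀ a b, wN' a b ≤ wN a b := by decide

/-- The weights `w`. -/
noncomputable def w : Sym2 (Fin 7) → ℝ := wt wN symm_wN

/-- The weights `w'`. -/
noncomputable def w' : Sym2 (Fin 7) → ℝ := wt wN' symm_wN'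

theorem decomposition_w :
    ∃ φ₁ φ₂, IsDecomposition (cut ⊤ w) φ₁ φ₂ ∧ φ₁ Finset.univ = 14 := by
  have h := decomposition_of_table (cut ⊤ w) T1 1 one_pos chk1 (by decide +kernel) (by
    intro X
    rw [w, cut_eq]
    exact_mod_cast tab1 X)
  have h14 : tab T1 127 = 14 := by decide +kernel
  rw [h14] at h
  obtain ⟨φ₁, φ₂, h1, h2⟩ := h
  exact ⟨φ₁, φ₂, h1, by rw [h2]; norm_num⟩

theorem decomposition_w' :
    ∃ φ₁ φ₂, IsDecomposition (cut ⊤ w') φ₁ φ₂ ∧ φ₁ Finset.univ = 57 / 4 := by
  have h := decomposition_of_table (cut ⊤ w') T2 4 (by norm_num) chk2 (by decide +kernel) (by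
    intro X
    rw [w', cut_eq]
    exact_mod_cast tab2 X)
  have h57 : tab T2 127 = 57 := by decide +kernel
  rw [h57] at h
  obtain ⟨φ₁, φ₂, h1, h2⟩ := h
  exact ⟨φ₁, φ₂, h1, by rw [h2]; norm_num⟩

/-! ### The lower bound for `w'` -/

theorem lower (φ₁ φ₂ : Finset (Fin 7) → ℝ) (h : IsDecomposition (cut ⊤ w') φ₁ φ₂) :
    57 / 4 ≤ φ₁ Finset.univ := by
  obtain ⟨hsum, hinc, hdec, hs1, hs2, he1, he2⟩ := h
  -- symmetrise the decomposition
  obtain ⟨K, hK⟩ : ∃ K : ℕ → ℝ, ∀ m, K m = (φ₁ (B m) + φ₂ (B m)ᶜ - φ₂ Finset.univ) / 2 :=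
    ⟨_, fun _ => rfl⟩
  have hB0 : B 0 = ∅ := by decide +kernel
  have hB127 : B 127 = Finset.univ := by decide +kernel
  have hcut : ∀ X, cut ⊤ w' X = cutN wN' X := fun X => by rw [w', cut_eq]
  have hVsum : φ₁ Finset.univ + φ₂ Finset.univ = 0 := by
    rw [← hsum, hcut]
    have : cutN wN' Finset.univ = 0 := by decide +kernel
    rw [this, Nat.cast_zero]
  have hK127 : K 127 = φ₁ Finset.univ := by
    rw [hK, hB127, Finset.compl_univ, he2]
    linarith
  have hK0 : K 0 = 0 := by
    rw [hK, hB0, Finset.compl_empty, he1]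
    ring
  have sub : ∀ a b, K (a &&& b) + K (a ||| b) ≤ K a + K b := by
    intro a b
    rw [hK, hK, hK, hK, B_and, B_or, Finset.compl_inter, Finset.compl_union]
    have h1 := hs1 (B a) (B b)
    have h2 := hs2 (B a)ᶜ (B b)ᶜ
    linarith
  have mono : ∀ m, K m ≤ K 127 := by
    intro m
    rw [hK, hK, hB127]
    have h1 := hinc (B m) Finset.univ (Finset.subset_univ _)
    have h2 := hdec (Finset.univᶜ) (B m)ᶜ (by simp)
    linarith
  have comp : ∀ m, m < 128 → K m + K (127 ^^^ m) = K 127 + tab D2 m := by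
    intro m hm
    have hc : B (127 ^^^ m) = (B m)ᶜ := by
      revert m
      decide +kernel
    have hd : cutN wN' (B m)ᶜ = cutN wN' (B m) := by
      revert m
      decide +kernel
    have h1 := hsum (B m)
    have h2 := hsum (B m)ᶜ
    rw [hcut] at h1 h2
    rw [hd] at h2
    rw [tabD m hm] at h1 h2
    rw [hK127, hK, hK, hc, compl_compl]
    linarith
  rw [← hK127]
  have e1 : K 59 + K 68 = K 127 + 10 := by
    have := comp 59 (by norm_num)
    rw [show tab D2 59 = 10 by decide +kernel] at this
    exact this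
  have e2 : K 58 + K 69 = K 127 + 11 := by
    have := comp 58 (by norm_num)
    rw [show tab D2 58 = 11 by decide +kernel] at this
    exact this
  have e3 : K 53 + K 74 = K 127 + 14 := by
    have := comp 53 (by norm_num)
    rw [show tab D2 53 = 14 by decide +kernel] at this
    exact this
  have e4 : K 50 + K 77 = K 127 + 13 := by
    have := comp 50 (by norm_num)
    rw [show tab D2 50 = 13 by decide +kernel] at this
    exact this
  have e5 : K 44 + K 83 = K 127 + 12 := by
    have := comp 44 (by norm_num)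
    rw [show tab D2 44 = 12 by decide +kernel] at this
    exact this
  have e6 : K 43 + K 84 = K 127 + 11 := by
    have := comp 43 (by norm_num)
    rw [show tab D2 43 = 11 by decide +kernel] at this
    exact this
  have e7 : K 41 + K 86 = K 127 + 13 := by
    have := comp 41 (by norm_num)
    rw [show tab D2 41 = 13 by decide +kernel] at this
    exact this
  have e8 : K 38 + K 89 = K 127 + 14 := by
    have := comp 38 (by norm_num)
    rw [show tab D2 38 = 14 by decide +kernel] at this
    exact this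
  have e9 : K 37 + K 90 = K 127 + 13 := by
    have := comp 37 (by norm_num)
    rw [show tab D2 37 = 13 by decide +kernel] at this
    exact this
  have e10 : K 36 + K 91 = K 127 + 12 := by
    have := comp 36 (by norm_num)
    rw [show tab D2 36 = 12 by decide +kernel] at this
    exact this
  have e11 : K 21 + K 106 = K 127 + 14 := by
    have := comp 21 (by norm_num)
    rw [show tab D2 21 = 14 by decide +kernel] at this
    exact this
  have e12 : K 19 + K 108 = K 127 + 14 := by
    have := comp 19 (by norm_num)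
    rw [show tab D2 19 = 14 by decide +kernel] at this
    exact this
  have h1 : K 126 ≤ K 127 := mono 126
  have h2 : K 125 ≤ K 127 := mono 125
  have h3 : K 23 + K 119 ≤ K 55 + K 87 := sub 55 87
  have h4 : K 95 ≤ K 127 := mono 95
  have h5 : K 110 + K 127 ≤ K 111 + K 126 := sub 111 126
  have h6 : K 36 + K 45 ≤ K 37 + K 44 := sub 37 44
  have h7 : K 50 + K 59 ≤ K 51 + K 58 := sub 51 58
  have h8 : K 123 ≤ K 127 := mono 123
  have h9 : K 109 + K 127 ≤ K 111 + K 125 := sub 111 125
  have h10 : K 55 + K 127 ≤ K 63 + K 119 := sub 63 119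
  have h11 : K 78 + K 111 ≤ K 79 + K 110 := sub 79 110
  have h12 : K 108 + K 111 ≤ K 109 + K 110 := sub 109 110
  have h13 : K 115 + K 127 ≤ K 119 + K 123 := sub 119 123
  have h14 : K 79 + K 127 ≤ K 95 + K 111 := sub 95 111
  have h15 : K 74 + K 94 ≤ K 78 + K 90 := sub 78 90
  have h16 : K 41 + K 47 ≤ K 43 + K 45 := sub 43 45
  have h17 : K 89 + K 95 ≤ K 91 + K 93 := sub 91 93
  have h18 : K 46 + K 63 ≤ K 47 + K 62 := sub 47 62
  have h19 : K 39 + K 63 ≤ K 47 + K 55 := sub 47 55
  have h20 : K 19 + K 87 ≤ K 23 + K 83 := sub 23 83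
  have h21 : K 63 ≤ K 127 := mono 63
  have h22 : K 119 ≤ K 127 := mono 119
  have h23 : K 51 + K 119 ≤ K 55 + K 115 := sub 55 115
  have h24 : K 21 + K 117 ≤ K 53 + K 85 := sub 53 85
  have h25 : K 38 + K 47 ≤ K 39 + K 46 := sub 39 46
  have h26 : K 93 + K 127 ≤ K 95 + K 125 := sub 95 125
  have h27 : K 53 + K 119 ≤ K 55 + K 117 := sub 55 117
  have h28 : K 107 + K 127 ≤ K 111 + K 123 := sub 111 123
  have h29 : K 111 ≤ K 127 := mono 111
  have h30 : K 77 + K 125 ≤ K 93 + K 109 := sub 93 109
  have h31 : K 87 + K 127 ≤ K 95 + K 119 := sub 95 119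
  have h32 : K 117 + K 127 ≤ K 119 + K 125 := sub 119 125
  have h33 : K 62 + K 127 ≤ K 63 + K 126 := sub 63 126
  have h34 : K 91 + K 127 ≤ K 95 + K 123 := sub 95 123
  have h35 : K 86 + K 95 ≤ K 87 + K 94 := sub 87 94
  have h36 : K 106 + K 111 ≤ K 107 + K 110 := sub 107 110
  have h37 : K 68 + K 85 ≤ K 69 + K 84 := sub 69 84
  linarith [hK0, h1, h2, h3, h4, h5, h6, h7, h8, h9, h10, h11, h12, h13, h14, h15, h16, h17, h18, h19, h20, h21, h22, h23, h24, h25, h26, h27, h28, h29, h30, h31, h32, h33, h34, h35, h36, h37, e1, e2, e3, e4, e5, e6, e7, e8, e9, e10, e11, e12]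

end Pool.Agent.Q181.CutMono

namespace Pool.Agent.Results.MP_37da45_co.NotMonotone

open Pool.Agent.Q181.CutMono in
/-- The value `‖d_{G,w}‖₊` of weighted cut functions is not monotone in the weights: for certain
weights `0 ≤ w' ≤ w` of the edges of `K₇` it is at most `14` for `w`, and it is `57 / 4` for
`w'`; both functions have monotonic sum-decompositions, and for `w'` the least value is
attained. -/
theorem result :
    ∃ w w' : Sym2 (Fin 7) → ℝ, (∀ e, 0 ≤ w' e) ∧ (∀ e, w' e ≤ w e) ∧
      (∃ φ₁ φ₂, IsDecomposition (cut ⊤ w) φ₁ φ₂ ∧ φ₁ Finset.univ = 14) ∧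
      IsLeast {r | ∃ φ₁ φ₂, IsDecomposition (cut ⊤ w') φ₁ φ₂ ∧ φ₁ Finset.univ = r} (57 / 4) ∧
      plusNorm (cut ⊤ w) < plusNorm (cut ⊤ w') := by
  have hleast : IsLeast {r | ∃ φ₁ φ₂, IsDecomposition (cut ⊤ Pool.Agent.Q181.CutMono.w') φ₁ φ₂ ∧
      φ₁ Finset.univ = r} (57 / 4) := by
    refine ⟨decomposition_w', ?_⟩
    rintro r ⟨φ₁, φ₂, h, rfl⟩
    exact lower φ₁ φ₂ h
  refine ⟨Pool.Agent.Q181.CutMono.w, Pool.Agent.Q181.CutMono.w', ?_, ?_, decomposition_w, hleast,
    ?_⟩
  · intro e
    induction e using Sym2.ind with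
    | _ a b => exact Nat.cast_nonneg _
  · intro e
    induction e using Sym2.ind with
    | _ a b => exact Nat.cast_le.mpr (le_wN a b)
  · rw [plusNorm, plusNorm, hleast.csInf_eq]
    refine lt_of_le_of_lt (csInf_le ?_ decomposition_w) (by norm_num)
    refine ⟨0, ?_⟩
    rintro r ⟨φ₁, φ₂, h, rfl⟩
    rw [← h.empty₁]
    exact h.increasing _ _ (Finset.empty_subset _)

end Pool.Agent.Results.MP_37da45_co.NotMonotone
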